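import Pool.Agent.W792.WA.Stm

/-!
Continuity of the effective contraction in the momentum.
-/

set_option autoImplicit false

namespace Pool.Agent.W589.WA.Uuc

open MeasureTheory Pool.Agent.W792.LL Pool.Agent.W792.WA

theorem toC_apply {X : Type} [TopologicalSpace X] (f : X → ℂ) (h : Continuous f) (x : X) :
    toC f x = f x := by
  unfold toC
  rw [dif_pos h]
  rfl

theorem main : S_SC1 → S_UUC := by
  intro hS d ρ _ C q w s hρ hw hq0 hq1 hwq hs hqs
  have hae : ∀ᵐ a ∂ρ, a ∈ Set.Icc (-C) C := by
    rw [ae_iff]
    exact hρ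
  have hwc : ∀ k, Continuous (w k) := fun k => by
    have : w k = Function.uncurry w ∘ fun a => (k, a) := rfl
    rw [this]
    exact hw.comp (by fun_prop)
  have hwc' : ∀ a, Continuous fun k => w k a := fun a => by
    have : (fun k => w k a) = Function.uncurry w ∘ fun k => (k, a) := rfl
    rw [this]
    exact hw.comp (by fun_prop)
  have hsk : ∀ k, ‖s k‖ ≤ ‖s‖ := fun k => s.norm_coe_le_norm k
  have hSk := fun k => hS ρ (w k) q (s k) (hwc k).measurable hq0 hq1
    (hae.mono fun a ha => hwq k a ha) (le_trans (hsk k) hs)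
    (lt_of_le_of_lt (mul_le_mul_of_nonneg_left (hsk k) hq0) hqs)
  have hlow : ∀ k, ∀ a ∈ Set.Icc (-C) C, 1 - q * ‖s‖ ≤ ‖1 - w k a * s k‖ := by
    intro k a ha
    have h1 : ‖w k a * s k‖ ≤ q * ‖s‖ := by
      rw [norm_mul]
      exact mul_le_mul (hwq k a ha) (hsk k) (norm_nonneg _) hq0
    have h2 := norm_sub_norm_le (1 : ℂ) (w k a * s k)
    rw [norm_one] at h2
    linarith
  have hB : Continuous fun k => Bs ρ (w k) (s k) := by
    unfold Bs
    refine continuous_of_dominated (bound := fun _ => q / (1 - q * ‖s‖)) ?_ ?_ ?_ ?_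
    · intro k
      have h1 : Measurable fun a => w k a / (1 - w k a * s k) :=
        (hwc k).measurable.div (measurable_const.sub ((hwc k).measurable.mul_const _))
      exact h1.aestronglyMeasurable
    · intro k
      filter_upwards [hae] with a ha
      rw [norm_div]
      exact div_le_div₀ hq0 (hwq k a ha) (by linarith) (hlow k a ha)
    · exact integrable_const _
    · filter_upwards [hae] with a ha
      refine (hwc' a).div (continuous_const.sub ((hwc' a).mul s.continuous)) ?_
      intro k h0
      have h1 := hlow k a ha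
      rw [h0, norm_zero] at h1
      linarith
  have hU : Continuous fun k => Us ρ (w k) (s k) := by
    unfold Us
    exact hB.div (continuous_const.add (s.continuous.mul hB)) fun k => (hSk k).2.1
  have hval : ∀ k, UU ρ w s k = Us ρ (w k) (s k) := fun k => toC_apply _ hU k
  refine ⟨hval, ?_⟩
  rw [ContinuousMap.norm_le _ hq0]
  intro k
  rw [hval]
  exact (hSk k).2.2.1

end Pool.Agent.W589.WA.Uuc
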